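import Pool.Agent.H55.Tig.T7

set_option autoImplicit false

/-!
# MP_aebb62_gt, Q1: a negative answer at a Dirac measure is consistent with ZFC

The definitions are in `Pool/Agent/H55/Tig/TDefs.lean` (compact zero-dimensional spaces and their probability measures
inside a model), in `Pool/Agent/H55/CSDefs.lean` (`ZFC`, `IsFun`, `Sub`, `IsCountable`) and in
`Pool/Agent/H55/SCDefs.lean` (`ZF`, `IsPair`, `Rel`, `IsOmega`, `IsReals`).

The model is a generic extension of a countable elementary submodel by the countable sequences of points of the unit
interval. A generic sequence `c` of length `ω₁` gives closed sets `K β` of measure at least `1 / 2` which miss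
`c 0, ..., c β`; as every point of the interval is some `c β`, the sets `B` of ordinals such that the `K β`, `β ∈ B`,
have a common point are countable, and they form a compact set `X` of countable subsets of `ω₁`. The measures are the
images of Lebesgue measure under the maps `t ↦ {β > γ : t ∈ K β}`.
-/

namespace Pool.Agent.Results.MP_aebb62_gt.ConsistentFailure

open Pool.Agent.H55.SC Pool.Agent.H55.CS Pool.Agent.H55.TG

/-- There is a countable wellfounded model `(M, E)` of `ZFC` with a set `I`, a set `X` of countable subsets of `I`, a
member `x` of `X` and a set `P` such that in the model `X` is compact and countably tight, `P` is a set of probability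
measures on `X`, and the Dirac measure `d` at `x` belongs to the closure of `P` but not to the closure of any
countable subset of `P`. -/
theorem result : ∃ (M : Type 1) (E : M → M → Prop), Countable M ∧ WellFounded E ∧ ZFC E ∧
    ∃ w, IsOmega E w ∧ ∃ (R I X x d P : M) (_ : Field (El E R)) (_ : LinearOrder (El E R)),
      IsReals E R ∧ IsTightCompactum E w I X ∧ IsDirac E w R I X x d ∧ (∀ m, E m P → IsProb E w R I X m) ∧
      InWeakClosure E w R I X P d ∧ ∀ B, Sub E B P → IsCountable E w B → ¬ InWeakClosure E w R I X B d :=
  Pool.Agent.H55.Tig.main_result

end Pool.Agent.Results.MP_aebb62_gt.ConsistentFailure
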