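import Mathlib
import Pool.Agent.RadT.Perm
import Pool.Agent.RadT.Conv
import Pool.Agent.RadT.Atom
import Pool.Agent.RadT.Wred

/-!
# Countable tightness of `P(X)` at Dirac measures: permanence and reductions

`DiracTight X x` means that `P(X)` has countable tightness at the Dirac measure at `x`. All results
are in ZFC.
-/

open MeasureTheory Set

namespace Pool.Agent.Results.MP_aebb62_gt.Permanence

open Pool.Agent.PolT Pool.Agent.RadT

/-- 1. Countable products. 2. Fibres. 3. Countable closed covers. 4. For countably tight `X`: only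
a closed set with scattered complement (for instance the perfect kernel) matters. 5. Convex compacta
of countable tightness at their extreme points. 6. The convex characterization of `DiracTight`.
7. For countably tight `X`, it is enough to consider sets of atomless measures. 8. The structure
of failures. 9. The general decomposition theorem. 10. Failures are inherited by continuous images
in `ℝ ^ ω₁`. 11. So Q1 is equivalent to its restriction to compact subsets of `ℝ ^ ω₁`, that is, to
compacta of weight at most `ℵ₁`; here `W` is the first uncountable ordinal. -/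
theorem result :
    -- 1
    (∀ (ι : Type) [Countable ι] (Z : ι → Type) [∀ n, TopologicalSpace (Z n)]
      [∀ n, CompactSpace (Z n)] [∀ n, T2Space (Z n)] (z : ∀ n, Z n),
      DiracTight (∀ n, Z n) z ↔ ∀ n, DiracTight (Z n) (z n)) ∧
    (∀ (X : Type) [TopologicalSpace X] [CompactSpace X] [T2Space X] (Y : Type)
      [TopologicalSpace Y] [CompactSpace Y] [T2Space Y] (x : X) (y : Y),
      DiracTight (X × Y) (x, y) ↔ DiracTight X x ∧ DiracTight Y y) ∧
    -- 2
    (∀ (X : Type) [TopologicalSpace X] [CompactSpace X] [T2Space X] (Z : Type)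
      [TopologicalSpace Z] [CompactSpace Z] [T2Space Z] (f : C(X, Z)) (x : X),
      DiracTight Z (f x) → DiracTight (f ⁻¹' {f x} : Set X) ⟨x, rfl⟩ → DiracTight X x) ∧
    -- 3
    (∀ (X : Type) [TopologicalSpace X] [CompactSpace X] [T2Space X] (A : ℕ → Set X),
      (∀ n, IsClosed (A n)) → ⋃ n, A n = univ → ∀ x : X,
      (DiracTight X x ↔ ∀ n (h : x ∈ A n), DiracTight (A n) ⟨x, h⟩)) ∧
    -- 4
    (∀ (X : Type) [TopologicalSpace X] [CompactSpace X] [T2Space X] (K : Set X),
      (∀ y : X, TightAt y) → IsClosed K →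
      (∀ C ⊆ Kᶜ, C.Nonempty → ∃ w, ∃ U, IsOpen U ∧ U ∩ C = {w}) → ∀ x : X,
      (DiracTight X x ↔ ∀ h : x ∈ K, DiracTight K ⟨x, h⟩)) ∧
    -- 5
    (∀ (E : Type) [AddCommGroup E] [Module ℝ E] [TopologicalSpace E] [IsTopologicalAddGroup E]
      [ContinuousSMul ℝ E] [T2Space E] [LocallyConvexSpace ℝ E] (K : Set E), IsCompact K →
      Convex ℝ K → ∀ e : K, (e : E) ∈ K.extremePoints ℝ → TightAt e → DiracTight K e) ∧
    -- 6
    (∀ (X : Type) [TopologicalSpace X] [CompactSpace X] [T2Space X] (x : X),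
      DiracTight X x ↔ ∃ (E : Type) (_ : AddCommGroup E) (_ : Module ℝ E) (_ : TopologicalSpace E)
        (_ : IsTopologicalAddGroup E) (_ : ContinuousSMul ℝ E) (_ : T2Space E)
        (_ : LocallyConvexSpace ℝ E) (K : Set E) (g : X → K), IsCompact K ∧ Convex ℝ K ∧
        Continuous g ∧ Function.Injective g ∧ (g x : E) ∈ K.extremePoints ℝ ∧ TightAt (g x)) ∧
    -- 7
    (∀ (X : Type) [TopologicalSpace X] [CompactSpace X] [T2Space X] [MeasurableSpace X]
      [BorelSpace X] (x : X), (∀ y : X, TightAt y) → (TightAt (dirac x) ↔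
      ∀ A : Set (P X), (∀ μ ∈ A, ∀ y, (μ.1 : Measure X) {y} = 0) → dirac x ∈ closure A →
        ∃ B ⊆ A, B.Countable ∧ dirac x ∈ closure B)) ∧
    -- 8
    (∀ (X : Type) [TopologicalSpace X] [CompactSpace X] [T2Space X] [MeasurableSpace X]
      [BorelSpace X] (x : X), ¬ TightAt (dirac x) → ∃ (A : Set (P X)) (m : Measure X),
      (∀ C ⊆ A, C.Countable → closure C ⊆ A) ∧ dirac x ∈ closure A ∧
      (∀ μ ∈ A, (μ.1 : Measure X) {x} = 0) ∧
      ((∀ y : X, TightAt y) → ∀ μ ∈ A, ∀ y, (μ.1 : Measure X) {y} = 0) ∧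
      IsProbabilityMeasure m ∧ (∀ U, IsOpen U → x ∈ U → m U = 1) ∧
      (∀ B, SmallAt x B → m B = 0) ∧
      (∀ 𝓑 : Set (Set X), 𝓑.Countable → (∀ B ∈ 𝓑, MeasurableSet B) →
        ∃ μ ∈ A, ∀ B ∈ 𝓑, (μ.1 : Measure X) B = m B)) ∧
    -- 9
    (∀ (X : Type) [TopologicalSpace X] [CompactSpace X] [T2Space X] [MeasurableSpace X]
      [BorelSpace X] (x : X), SmallAt x ({x}ᶜ : Set X) → TightAt (dirac x)) ∧
    -- 10
    (∀ (X : Type) [TopologicalSpace X] [CompactSpace X] [T2Space X] (x : X), ¬ DiracTight X x →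
      ∃ f : C(X, W → ℝ), ¬ DiracTight (range f) ⟨f x, mem_range_self x⟩) ∧
    -- 11
    ((∀ (X : Type) [TopologicalSpace X] [CompactSpace X] [T2Space X], (∀ y : X, TightAt y) →
      ∀ x : X, DiracTight X x) ↔
      ∀ S : Set (W → ℝ), IsCompact S → (∀ y : S, TightAt y) → ∀ x : S, DiracTight S x) := by
  refine ⟨?_, ?_, ?_, ?_, ?_, ?_, ?_, ?_, ?_, ?_, ?_, q1_iff_weight⟩
  · intro ι _ Z _ _ _ z
    exact diracTight_pi z
  · intro X _ _ _ Y _ _ _ x y
    exact diracTight_prod x y
  · intro X _ _ _ Z _ _ _ f x h1 h2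
    exact diracTight_of_fibre f x h1 h2
  · intro X _ _ _ A hA hU x
    exact diracTight_cover hA hU x
  · intro X _ _ _ K hX hK hs x
    exact diracTight_kernel hX hK hs x
  · intro E _ _ _ _ _ _ _ K hK hc e he ht
    have _ : CompactSpace K := isCompact_iff_compactSpace.mp hK
    let _ : MeasurableSpace K := borel K
    have _ : BorelSpace K := ⟨rfl⟩
    rw [diracTight_iff]
    exact tightAt_dirac_of_extreme hc he ht
  · intro X _ _ _ x
    exact diracTight_iff_convex x
  · intro X _ _ _ _ _ x hX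
    exact tightAt_iff_atomless hX
  · intro X _ _ _ _ _ x h
    exact exists_structure h
  · intro X _ _ _ _ _ x h
    exact tight_of_small h
  · intro X _ _ _ x h
    exact exists_image h

end Pool.Agent.Results.MP_aebb62_gt.Permanence
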