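import Mathlib
import Pool.Agent.RadT.QRN
import Pool.Agent.RadT.Atom

/-!
# Countable tightness of `P(X)` for quasi-Radon-Nikodym compacta, and at countably determined
# measures for Radon compacta

All results are in ZFC. They extend the theorem of R. Pol for scattered compacta: a scattered
compactum is quasi-Radon-Nikodym (take for `d` the discrete metric).
-/

open MeasureTheory Set

namespace Pool.Agent.Results.MP_aebb62_gt.QuasiRN

open Pool.Agent.PolT Pool.Agent.RadT

/-- 1. If `X` is a countably tight quasi-Radon-Nikodym compactum then `P(X)` has countable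
tightness.
2. The same holds if `X` is a countably tight compactum which is the union of countably many closed
quasi-Radon-Nikodym subspaces.
3. The same holds if the countably tight compactum `X` has a continuous map onto a scattered space
all of whose fibres are quasi-Radon-Nikodym.
4. The same holds for all countably tight compacta `X` in the smallest class given by `Tame`.
5. If all Borel probability measures on the compactum `X` with the same integrals of continuous
functions as `μ₀ ∈ P(X)` are countably determined then `P(X)` has countable tightness at `μ₀`.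
6. If all Borel probability measures on the compactum `X` are regular then `P(X)` has countable
tightness at all countably determined `μ₀`, in particular at all Dirac measures. -/
theorem result :
    (∀ (X : Type) [TopologicalSpace X] [CompactSpace X] [T2Space X] [MeasurableSpace X]
      [BorelSpace X], (∀ y : X, TightAt y) → RadT.QuasiRN X → ∀ μ : P X, TightAt μ) ∧
    (∀ (X : Type) [TopologicalSpace X] [CompactSpace X] [T2Space X] [MeasurableSpace X]
      [BorelSpace X], (∀ y : X, TightAt y) → ∀ A : ℕ → Set X, (∀ n, IsClosed (A n)) →
      (∀ n, RadT.QuasiRN (A n)) → ⋃ n, A n = univ → ∀ μ : P X, TightAt μ) ∧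
    (∀ (X : Type) [TopologicalSpace X] [CompactSpace X] [T2Space X] [MeasurableSpace X]
      [BorelSpace X] (W : Type) [TopologicalSpace W] [T2Space W] (f : X → W),
      (∀ y : X, TightAt y) → Continuous f → Function.Surjective f → Scat W →
      (∀ w, RadT.QuasiRN (f ⁻¹' {w})) → ∀ μ : P X, TightAt μ) ∧
    (∀ (X : Type) [TopologicalSpace X] [CompactSpace X] [T2Space X] [MeasurableSpace X]
      [BorelSpace X], (∀ y : X, TightAt y) → Tame X univ → ∀ μ : P X, TightAt μ) ∧
    (∀ (X : Type) [TopologicalSpace X] [CompactSpace X] [T2Space X] [MeasurableSpace X]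
      [BorelSpace X] (μ₀ : P X), (∀ m : Measure X, IsProbabilityMeasure m →
      (∀ f : C(X, ℝ), ∫ y, f y ∂m = ∫ y, f y ∂(μ₀.1 : Measure X)) → CountablyDetermined m) →
      TightAt μ₀) ∧
    (∀ (X : Type) [TopologicalSpace X] [CompactSpace X] [T2Space X] [MeasurableSpace X]
      [BorelSpace X], (∀ m : Measure X, IsProbabilityMeasure m → m.Regular) →
      (∀ μ₀ : P X, CountablyDetermined (μ₀.1 : Measure X) → TightAt μ₀) ∧
      ∀ x : X, TightAt (dirac x)) := by
  refine ⟨?_, ?_, ?_, ?_, ?_, ?_⟩
  · intro X _ _ _ _ _ hX h μ
    refine tight_of_tame hX (Tame.quasiRN _ isClosed_univ (quasiRN_univ h)) μ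
  · intro X _ _ _ _ _ hX A hA h hU μ
    exact tight_of_sigmaQuasiRN hX A hA h hU μ
  · intro X _ _ _ _ _ W _ _ f hX hf hs hW hfib μ
    exact tight_of_fibres hX hf hs hW hfib μ
  · intro X _ _ _ _ _ hX h μ
    exact tight_of_tame hX h μ
  · intro X _ _ _ _ _ μ₀ h
    exact tight_of_determined μ₀ h
  · intro X _ _ _ _ _ hR
    exact ⟨fun μ₀ h => tight_of_radon hR μ₀ h, fun x => tight_of_radon hR _ countablyDetermined_dirac⟩

end Pool.Agent.Results.MP_aebb62_gt.QuasiRN
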