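import Mathlib
import Pool.Agent.RadT.Wsub
import Pool.Agent.RadT.MLin
import Pool.Agent.PolT.Meas
import Pool.Agent.PolT.Pos

/-!
# R. Pol's question on the tightness of `P(X)` at Dirac measures, for points with refinable
# complement

In ZFC, `P(X)` has countable tightness at the Dirac measure at `x` if `X` without `x` is weakly
submetacompact. For meta-Lindelöf complements, and for Corson compacta, the question is equivalent
to Martin's axiom for measure algebras and `ℵ₁` dense sets. In particular a positive answer to Q1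
implies that the real line is not covered by `ℵ₁` null sets (so it implies the failure of the
continuum hypothesis).
-/

open MeasureTheory Set
open scoped Cardinal

namespace Pool.Agent.Results.MP_aebb62_gt.Refinable

open Pool.Agent.PolT Pool.Agent.RadT

/-- Q1: for every compactum `X` of countable tightness and every `x`, the tightness of `P(X)` at
the Dirac measure at `x` is countable. -/
def PolQ1 : Prop :=
  ∀ (X : Type) [TopologicalSpace X] [CompactSpace X] [T2Space X] [MeasurableSpace X]
    [BorelSpace X], (∀ y : X, TightAt y) → ∀ x : X, TightAt (dirac x)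

/-- Q1 for Corson compacta. -/
def CorsonQ1 : Prop :=
  ∀ (X : Type) [TopologicalSpace X] [CompactSpace X] [T2Space X] [MeasurableSpace X]
    [BorelSpace X], CorsonEmb X → ∀ x : X, TightAt (dirac x)

/-- Countable tightness of the whole of `P(X)` for all Corson compacta `X`. -/
def CorsonTight : Prop :=
  ∀ (X : Type) [TopologicalSpace X] [CompactSpace X] [T2Space X] [MeasurableSpace X]
    [BorelSpace X], CorsonEmb X → ∀ μ : P X, TightAt μ

/-- Q1 at points whose complement is the union of countably many meta-Lindelöf Borel subspaces. -/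
def MetaLindelofQ1 : Prop :=
  ∀ (X : Type) [TopologicalSpace X] [CompactSpace X] [T2Space X] [MeasurableSpace X]
    [BorelSpace X] (x : X) (B : ℕ → Set X), (∀ n, MeasurableSet (B n)) → ⋃ n, B n = {x}ᶜ →
    (∀ n, MetaLindelof (B n)) → TightAt (dirac x)

/-- The real line is the union of at most `ℵ₁` Lebesgue null sets. -/
def RealNullCover : Prop :=
  ∃ 𝒩 : Set (Set ℝ), #𝒩 ≤ ℵ₁ ∧ (∀ N ∈ 𝒩, volume N = 0) ∧ ⋃₀ 𝒩 = univ

theorem not_nullCover_of_corsonQ1 (h : CorsonQ1) : ¬ NullCover := by
  rintro ⟨T, i1, i2, i3, i4, i5, m, hm1, hm2, 𝒩, h1, h0, hU⟩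
  obtain ⟨K, hK, hpc, hKm⟩ := exists_family m 𝒩 h1 h0 hU
  let _ : MeasurableSpace (XS K) := borel _
  have _ : BorelSpace (XS K) := ⟨rfl⟩
  have hc : CompactSpace (XS K) := isCompact_iff_compactSpace.mp (isClosed_XS K hK).isCompact
  have hT : Nonempty T := by
    by_contra hT
    rw [not_nonempty_iff] at hT
    have := measure_univ (μ := m)
    rw [univ_eq_empty_iff.mpr hT] at this
    simp at this
  obtain ⟨t₀⟩ := hT
  exact not_tightAt K m hK hKm t₀ (h (XS K) (corsonEmb_XS K hK hpc) (zeroPt K t₀))

theorem nullCover_of_real (h : RealNullCover) : NullCover := by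
  obtain ⟨𝒩, h1, h0, hU⟩ := h
  refine ⟨unitInterval, inferInstance, inferInstance, inferInstance, inferInstance,
    inferInstance, volume, inferInstance, inferInstance,
    (fun N => (Subtype.val ⁻¹' N : Set unitInterval)) '' 𝒩, Cardinal.mk_image_le.trans h1, ?_, ?_⟩
  · rintro _ ⟨N, hN, rfl⟩
    have h2 : (volume : Measure unitInterval) (Subtype.val ⁻¹' N) =
        volume ((Subtype.val : unitInterval → ℝ) '' (Subtype.val ⁻¹' N)) :=
      comap_subtype_coe_apply measurableSet_Icc volume _
    rw [h2]
    exact measure_mono_null (image_preimage_subset _ _) (h0 N hN)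
  · rw [eq_univ_iff_forall]
    intro x
    have hx : (x : ℝ) ∈ ⋃₀ 𝒩 := by rw [hU]; trivial
    obtain ⟨N, hN, hxN⟩ := hx
    exact ⟨_, ⟨N, hN, rfl⟩, hxN⟩

theorem real_of_ch (h : (𝔠 : Cardinal.{0}) ≤ ℵ₁) : RealNullCover := by
  refine ⟨range fun x : ℝ => {x}, ?_, ?_, ?_⟩
  · refine Cardinal.mk_range_le.trans ?_
    rw [Cardinal.mk_real]
    exact h
  · rintro _ ⟨x, rfl⟩
    simp
  · rw [eq_univ_iff_forall]
    intro x
    exact ⟨{x}, mem_range_self x, rfl⟩

/-- 1. In ZFC: if the complement of `x` in the compactum `X` is the union of countably many weakly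
submetacompact Borel subspaces then `P(X)` has countable tightness at the Dirac measure at `x`.
2. The same with meta-Lindelöf subspaces holds if and only if no compact space with a regular Borel
probability measure is covered by `ℵ₁` null sets.
3. Complements of points in Corson compacta are meta-Lindelöf.
4. For Corson compacta, Q1 has a positive answer if and only if there is no such covering.
5. The same equivalence holds for countable tightness of the whole of `P(X)`.
6. Corson compacta have countable tightness, so a positive answer to Q1 implies that there is no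
such covering. 7 and 8: such a covering exists if the real line is covered by `ℵ₁` Lebesgue null
sets, in particular under the continuum hypothesis. -/
theorem result :
    (∀ (X : Type) [TopologicalSpace X] [CompactSpace X] [T2Space X] [MeasurableSpace X]
      [BorelSpace X] (x : X) (B : ℕ → Set X), (∀ n, MeasurableSet (B n)) → ⋃ n, B n = {x}ᶜ →
      (∀ n, WeaklySubmetacompact (B n)) → TightAt (dirac x)) ∧
    (MetaLindelofQ1 ↔ ¬ NullCover) ∧
    (∀ (X : Type) [TopologicalSpace X] [CompactSpace X] [T2Space X], CorsonEmb X → ∀ x : X,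
      MetaLindelof ({x}ᶜ : Set X)) ∧
    (CorsonQ1 ↔ ¬ NullCover) ∧ (CorsonTight ↔ ¬ NullCover) ∧ (PolQ1 → CorsonQ1) ∧
      (RealNullCover → NullCover) ∧ ((𝔠 : Cardinal.{0}) ≤ ℵ₁ → RealNullCover) := by
  have hML : ∀ (X : Type) [TopologicalSpace X] [CompactSpace X] [T2Space X], CorsonEmb X →
      ∀ x : X, MetaLindelof ({x}ᶜ : Set X) := by
    intro X _ _ _ hX x
    exact CorsonEmb.metaLindelof hX x
  refine ⟨?_, ⟨?_, ?_⟩, hML, ⟨not_nullCover_of_corsonQ1, ?_⟩, ⟨?_, ?_⟩, ?_, nullCover_of_real,
    real_of_ch⟩
  · intro X _ _ _ _ hb x B hB hU h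
    rw [← diracTight_iff]
    refine diracTight_of_wsubmeta B (fun n => ?_) hU h
    rw [← hb.measurable_eq]
    exact hB n
  · intro h
    apply not_nullCover_of_corsonQ1
    intro X _ _ _ _ _ hX x
    exact h X x (fun _ => {x}ᶜ) (fun _ => (measurableSet_singleton x).compl) (iUnion_const _)
      (fun _ => hML X hX x)
  · intro hnc X _ _ _ _ hb x B hB hU h
    rw [← diracTight_iff]
    refine diracTight_of_metaLindelof hnc B (fun n => ?_) hU h
    rw [← hb.measurable_eq]
    exact hB n
  · intro h X _ _ _ _ _ hX x
    exact tightAt_P h hX (dirac x)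
  · intro h
    apply not_nullCover_of_corsonQ1
    intro X _ _ _ _ _ hX x
    exact h X hX (dirac x)
  · intro h X _ _ _ _ _ hX μ
    exact tightAt_P h hX μ
  · intro h X _ _ _ _ _ hX x
    exact h X (fun y => hX.tightAt y) x

end Pool.Agent.Results.MP_aebb62_gt.Refinable
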